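import Mathlib
import Pool.Agent.K9h17.C.Stm
import Pool.Agent.H204R3.CM.Defs

/-!
# The Mumford-Tate conjecture for the powers of an abelian variety
-/

namespace Pool.Agent.K9h17.E

open Module Pool.Agent.Y90 Pool.Agent.N183.U5 TensorProduct
open Pool.Agent.H204R3.GP (IsTateClass)
open Pool.Agent.H204R3.CM (IsHodge)

variable {K : Type} [Field K] [CharZero K] {Γ : Type} [Group Γ]

/-- On each power `X ^ k` all Tate classes are linear combinations of Hodge classes: the alternating
forms `f` on the `k`-th power of the Tate module which are Tate classes are combinations of rational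
alternating forms on `H_1(X ^ k, ℚ)` which are Hodge classes. (The values of `f` on `H_1(X ^ k, ℚ)`
determine `f`.) Together with the theorem of Deligne, by which Hodge classes on abelian varieties are
Tate classes, this is the Mumford-Tate conjecture for `X`. -/
def TateIsHodge {X : AV} (ρ : Representation K Γ (K ⊗[ℚ] X.H)) (χ : Γ →* K) : Prop :=
  ∀ (k m : ℕ) (f : (Fin k → K ⊗[ℚ] X.H) [⋀^Fin m × Fin 2]→ₗ[K] K), IsTateClass ρ χ m f →
    ∃ (n : ℕ) (c : Fin n → K) (g : Fin n → (Fin k → X.H) [⋀^Fin m × Fin 2]→ₗ[ℚ] ℚ),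
      (∀ j, IsHodge (X.per.compLeft (Fin k)) (g j)) ∧
        ∀ v : Fin m × Fin 2 → Fin k → X.H,
          f (fun l i => (1 : K) ⊗ₜ[ℚ] v l i) = ∑ j, c j * ((g j v : ℚ) : K)

end Pool.Agent.K9h17.E
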