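import Mathlib
import Pool.Agent.K9h17.D.Stm
import Pool.Agent.K9h17.E.Hdg

/-!
# Tate tensors and Tate classes on the powers
-/

set_option linter.unusedSectionVars false

namespace Pool.Agent.K9h17.E

open Module Pool.Agent.Y90 Pool.Agent.N183.U5 TensorProduct
open Pool.Agent.H204R3.GP (IsTateClass)
open Pool.Agent.H204R3.CM (IsHodge)

noncomputable section

variable {K : Type} [Field K] [CharZero K]

/-- The components of a multilinear form on a power. -/
def comp {R V κ : Type} [CommRing R] [AddCommGroup V] [Module R V] {k : ℕ}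
    (f : MultilinearMap R (fun _ : κ => Fin k → V) R) (ι : κ → Fin k) :
    MultilinearMap R (fun _ : κ => V) R :=
  f.compLinearMap fun l => LinearMap.single R (fun _ : Fin k => V) (ι l)

/-- The pull back of a multilinear form to a power. -/
def pull {R V κ : Type} [CommRing R] [AddCommGroup V] [Module R V] {k : ℕ}
    (f : MultilinearMap R (fun _ : κ => V) R) (ι : κ → Fin k) :
    MultilinearMap R (fun _ : κ => Fin k → V) R :=
  f.compLinearMap fun l => LinearMap.proj (ι l)

theorem sum_comp {R V κ : Type} [CommRing R] [AddCommGroup V] [Module R V] [Fintype κ]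
    [DecidableEq κ] {k : ℕ} (f : MultilinearMap R (fun _ : κ => Fin k → V) R) (v : κ → Fin k → V) :
    f v = ∑ ι : κ → Fin k, comp f ι (fun l => v l (ι l)) := by
  have h1 : v = fun l => ∑ i : Fin k, (Pi.single i (v l i) : Fin k → V) := by
    funext l
    exact (Finset.univ_sum_single (v l)).symm
  nth_rewrite 1 [h1]
  rw [MultilinearMap.map_sum]
  rfl

/-- The antisymmetrization of a Hodge tensor. -/
theorem isHodge_alt {H T κ : Type} [AddCommGroup H] [Module ℚ H] [AddCommGroup T] [Module ℂ T]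
    [Fintype κ] [DecidableEq κ] {k : ℕ} {per : H →+ T} {f : MultilinearMap ℚ (fun _ : κ => H) ℚ}
    (hf : IsHodgeTensor per f) (ι : κ → Fin k) :
    IsHodge (per.compLeft (Fin k)) (MultilinearMap.alternatization (pull f ι)) := by
  obtain ⟨ψ, h1, h2⟩ := hf
  refine ⟨∑ σ : Equiv.Perm κ, (Equiv.Perm.sign σ) • (pull ψ ι).domDomCongr σ, fun v => ?_,
    fun z hz u => ?_⟩
  · rw [MultilinearMap.alternatization_apply, MultilinearMap.sum_apply, Rat.cast_sum]
    refine Finset.sum_congr rfl fun σ _ => ?_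
    rw [MultilinearMap.smul_apply, MultilinearMap.domDomCongr_apply,
      MultilinearMap.domDomCongr_apply]
    have h3 : pull ψ ι (fun l => (per.compLeft (Fin k)) (v (σ l))) =
        ((pull f ι (fun l => v (σ l)) : ℚ) : ℝ) := h1 fun l => v (σ l) (ι l)
    rw [h3]
    rcases Int.units_eq_one_or (Equiv.Perm.sign σ) with h4 | h4 <;> rw [h4] <;> simp
  · rw [MultilinearMap.sum_apply, MultilinearMap.sum_apply]
    refine Finset.sum_congr rfl fun σ _ => ?_
    rw [MultilinearMap.smul_apply, MultilinearMap.smul_apply, MultilinearMap.domDomCongr_apply,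
      MultilinearMap.domDomCongr_apply]
    congr 1
    exact h2 z hz fun l => u (σ l) (ι l)

/-- Tate tensors and Tate classes on the powers. -/
theorem tateIsHodge_of {Γ : Type} [Group Γ] {X : AV} {ρ : Representation K Γ (K ⊗[ℚ] X.H)}
    {χ : Γ →* K} (h : Pool.Agent.K9h17.D.TateIsHodge X ρ χ) : TateIsHodge ρ χ := by
  classical
  intro k m f hf
  obtain ⟨Δ, hΔ, hf⟩ := hf
  have hcomp : ∀ ι : Fin m × Fin 2 → Fin k,
      Pool.Agent.K9h17.D.IsTateTensor ρ χ (comp f.toMultilinearMap ι) := by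
    intro ι
    refine ⟨Δ, hΔ, fun g hg v => ?_⟩
    have h1 := hf g hg fun l => Pi.single (ι l) (v l)
    have h2 : (fun l i => ρ g ((Pi.single (ι l) (v l) : Fin k → K ⊗[ℚ] X.H) i)) =
        fun l => (Pi.single (ι l) (ρ g (v l)) : Fin k → K ⊗[ℚ] X.H) := by
      funext l i
      by_cases hi : i = ι l
      · subst hi
        rw [Pi.single_eq_same, Pi.single_eq_same]
      · rw [Pi.single_eq_of_ne hi, Pi.single_eq_of_ne hi, map_zero]
    rw [h2] at h1
    exact h1
  choose n c r hr hv using fun ι => h m _ (hcomp ι)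
  -- the index set
  let J : Type := Σ ι : Fin m × Fin 2 → Fin k, Fin (n ι)
  let e : Fin (Fintype.card J) ≃ J := (Fintype.equivFin J).symm
  let F : K := (((Fintype.card (Fin m × Fin 2)).factorial : ℕ) : K)
  have hF : F ≠ 0 := by
    change (((Fintype.card (Fin m × Fin 2)).factorial : ℕ) : K) ≠ 0
    exact_mod_cast Nat.factorial_ne_zero _
  refine ⟨Fintype.card J, fun j => F⁻¹ * c (e j).1 (e j).2, fun j =>
    MultilinearMap.alternatization (pull (r (e j).1 (e j).2) (e j).1),
    fun j => isHodge_alt (hr _ _) _, fun v => ?_⟩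
  have hsum : ∀ w : Fin m × Fin 2 → Fin k → X.H, f (fun l i => (1 : K) ⊗ₜ[ℚ] w l i) =
      ∑ j : J, c j.1 j.2 * ((pull (r j.1 j.2) j.1 w : ℚ) : K) := by
    intro w
    have h1 := sum_comp f.toMultilinearMap fun l i => (1 : K) ⊗ₜ[ℚ] w l i
    rw [Fintype.sum_sigma]
    refine h1.trans (Finset.sum_congr rfl fun ι _ => ?_)
    exact hv ι fun l => w l (ι l)
  have halt : F * f (fun l i => (1 : K) ⊗ₜ[ℚ] v l i) =
      ∑ σ : Equiv.Perm (Fin m × Fin 2), (Equiv.Perm.sign σ) •
        f (fun l i => (1 : K) ⊗ₜ[ℚ] v (σ l) i) := by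
    have h1 : ∀ σ : Equiv.Perm (Fin m × Fin 2), (Equiv.Perm.sign σ) •
        f (fun l i => (1 : K) ⊗ₜ[ℚ] v (σ l) i) = f (fun l i => (1 : K) ⊗ₜ[ℚ] v l i) := by
      intro σ
      have h2 := f.map_perm (fun l i => (1 : K) ⊗ₜ[ℚ] v l i) σ
      have h3 : ((fun l i => (1 : K) ⊗ₜ[ℚ] v l i) ∘ σ) =
        fun l i => (1 : K) ⊗ₜ[ℚ] v (σ l) i := rfl
      rw [h3] at h2
      rw [h2, smul_smul, Int.units_mul_self, one_smul]
    rw [Finset.sum_congr rfl fun σ _ => h1 σ, Finset.sum_const, Finset.card_univ,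
      Fintype.card_perm, nsmul_eq_mul]
  have h5 : f (fun l i => (1 : K) ⊗ₜ[ℚ] v l i) = F⁻¹ *
      ∑ σ : Equiv.Perm (Fin m × Fin 2), (Equiv.Perm.sign σ) •
        f (fun l i => (1 : K) ⊗ₜ[ℚ] v (σ l) i) := by
    rw [← halt, inv_mul_cancel_left₀ hF]
  rw [h5]
  have h6 : ∑ σ : Equiv.Perm (Fin m × Fin 2), (Equiv.Perm.sign σ) •
        f (fun l i => (1 : K) ⊗ₜ[ℚ] v (σ l) i) =
      ∑ j : J, c j.1 j.2 * ((MultilinearMap.alternatization (pull (r j.1 j.2) j.1) v : ℚ) : K) := by
    have h7 : ∀ σ : Equiv.Perm (Fin m × Fin 2), (Equiv.Perm.sign σ) •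
        f (fun l i => (1 : K) ⊗ₜ[ℚ] v (σ l) i) =
        ∑ j : J, c j.1 j.2 * ((((Equiv.Perm.sign σ) •
          pull (r j.1 j.2) j.1 (fun l => v (σ l)) : ℚ) : ℚ) : K) := by
      intro σ
      rw [hsum fun l => v (σ l), Finset.smul_sum]
      refine Finset.sum_congr rfl fun j _ => ?_
      rcases Int.units_eq_one_or (Equiv.Perm.sign σ) with h4 | h4 <;> rw [h4] <;> simp
    rw [Finset.sum_congr rfl fun σ _ => h7 σ, Finset.sum_comm]
    refine Finset.sum_congr rfl fun j _ => ?_
    rw [← Finset.mul_sum, MultilinearMap.alternatization_apply, Rat.cast_sum]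
    rfl
  rw [h6, Finset.mul_sum, ← Equiv.sum_comp e]
  refine Finset.sum_congr rfl fun j _ => ?_
  rw [mul_assoc]

end

end Pool.Agent.K9h17.E
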