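import Mathlib
import Pool.Agent.K9h17.T.Cor

/-!
# The centre of the endomorphism algebra of a simple abelian variety
-/

set_option linter.unusedSectionVars false

namespace Pool.Agent.K9h17.E

open Module Pool.Agent.Y90 Pool.Agent.R915 Pool.Agent.N183.U5 Polynomial
open Pool.Agent.K9h17.T

noncomputable section

variable {X : AV}

theorem hom_one : IsHom X X (1 : Module.End ℚ X.H) := ⟨LinearMap.id, fun _ => rfl⟩

theorem hom_mul {f g : Module.End ℚ X.H} (hf : IsHom X X f) (hg : IsHom X X g) :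
    IsHom X X (f * g) := by
  obtain ⟨F, hF⟩ := hf
  obtain ⟨G, hG⟩ := hg
  exact ⟨F.comp G, fun v => by
    change F (G (X.per v)) = X.per (f (g v))
    rw [hG, hF]⟩

theorem hom_aeval {a : Module.End ℚ X.H} (ha : IsHom X X a) (P : ℚ[X]) :
    IsHom X X (aeval a P) := by
  obtain ⟨Ψ, hΨ⟩ := ha
  exact ⟨aeval (Ψ : Module.End ℂ X.T) (P.map (algebraMap ℚ ℂ)), fun v =>
    tan_aeval (Ψ := Ψ) hΨ P v⟩

theorem inj_of_simple (hX : IsSimple X) {f : Module.End ℚ X.H} (hf : IsHom X X f)
    (h0 : f ≠ 0) : LinearMap.ker f = ⊥ := by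
  rcases hX.2 _ (isSub_ker hf) with h1 | h1
  · exact h1
  · exact absurd (LinearMap.ker_eq_top.1 h1) h0

theorem mul_ne (hX : IsSimple X) {f g : Module.End ℚ X.H} (hf : IsHom X X f)
    (hf0 : f ≠ 0) (hg0 : g ≠ 0) : f * g ≠ 0 := by
  intro h
  apply hg0
  refine LinearMap.ext fun v => ?_
  have h1 : g v ∈ LinearMap.ker f := LinearMap.congr_fun h v
  rw [inj_of_simple hX hf hf0, Submodule.mem_bot] at h1
  exact h1

theorem minpoly_ne (a : Module.End ℚ X.H) : minpoly ℚ a ≠ 0 :=
  minpoly.ne_zero (Algebra.IsIntegral.isIntegral a)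

/-- The embeddings of the field `ℚ[a]`. -/
theorem root_iff (hX : IsSimple X) {a : Module.End ℚ X.H} (ha : IsHom X X a) {t : ℂ}
    (ht : aeval t (minpoly ℚ a) = 0) (P : ℚ[X]) : aeval t P = 0 ↔ aeval a P = 0 := by
  have halg : IsIntegral ℚ t := isAlgebraic_iff_isIntegral.1 ⟨minpoly ℚ a, minpoly_ne a, ht⟩
  have hν : aeval a (minpoly ℚ t) = 0 := by
    obtain ⟨κ, hκ⟩ := minpoly.dvd ℚ t ht
    by_contra hne
    have h1 : aeval a (minpoly ℚ t) * aeval a κ = 0 := by
      rw [← map_mul, ← hκ, minpoly.aeval]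
    have h2 : aeval a κ = 0 := by
      by_contra h2
      exact mul_ne hX (hom_aeval ha _) hne h2 h1
    have h3 : minpoly ℚ a ∣ κ := minpoly.dvd ℚ a h2
    have hκ0 : κ ≠ 0 := by
      rintro rfl
      rw [mul_zero] at hκ
      exact minpoly_ne a hκ
    have h4 := Polynomial.natDegree_le_of_dvd h3 hκ0
    have h5 : (minpoly ℚ a).natDegree = (minpoly ℚ t).natDegree + κ.natDegree := by
      rw [hκ, natDegree_mul (minpoly.ne_zero halg) hκ0]
    have h6 := minpoly.natDegree_pos halg
    omega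
  constructor
  · intro h
    obtain ⟨κ, rfl⟩ := minpoly.dvd ℚ t h
    rw [map_mul, hν, zero_mul]
  · intro h
    obtain ⟨κ, rfl⟩ := minpoly.dvd ℚ a h
    rw [map_mul, ht, zero_mul]

theorem exists_root (hX : IsSimple X) (a : Module.End ℚ X.H) :
    ∃ t : ℂ, aeval t (minpoly ℚ a) = 0 := by
  obtain ⟨v, hv⟩ := hX.1
  have _ : Nontrivial X.H := ⟨v, 0, hv⟩
  have h1 : 0 < (minpoly ℚ a).natDegree := minpoly.natDegree_pos (Algebra.IsIntegral.isIntegral a)
  exact IsAlgClosed.exists_aeval_eq_zero ℂ (minpoly ℚ a) (by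
    rw [Polynomial.degree_eq_natDegree (minpoly_ne a)]
    exact_mod_cast h1.ne')

/-- **The centre of the endomorphism algebra of a simple abelian variety** is generated by one
element. -/
theorem exists_centreGen (hX : IsSimple X) {a : Module.End ℚ X.H} (ha : MaxField X a) :
    ∃ φ, CentreGen X φ := by
  obtain ⟨t, ht⟩ := exists_root hX a
  have hiff := root_iff hX ha.1 ht
  have halg : IsIntegral ℚ t := isAlgebraic_iff_isIntegral.1 ⟨minpoly ℚ a, minpoly_ne a, ht⟩
  -- the polynomials whose values at `a` are central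
  let S : Subalgebra ℚ ℚ[X] :=
    { carrier := {P | ∀ f : Module.End ℚ X.H, IsHom X X f → f * aeval a P = aeval a P * f}
      mul_mem' := by
        intro P Q hP hQ f hf
        rw [map_mul, ← mul_assoc, hP f hf, mul_assoc, hQ f hf, mul_assoc]
      add_mem' := by
        intro P Q hP hQ f hf
        rw [map_add, mul_add, add_mul, hP f hf, hQ f hf]
      algebraMap_mem' := by
        intro r f _
        rw [AlgHom.commutes]
        exact (Algebra.commutes r f).symm }
  let B : Subalgebra ℚ ℂ := S.map (aeval t : ℚ[X] →ₐ[ℚ] ℂ)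
  have hBalg : ∀ x ∈ B, IsIntegral ℚ x := by
    rintro _ ⟨P, -, rfl⟩
    exact IsIntegral.of_mem_of_fg (Algebra.adjoin ℚ {t}) halg.fg_adjoin_singleton _ (by
      rw [Algebra.adjoin_singleton_eq_range_aeval]
      exact ⟨P, rfl⟩)
  let L : IntermediateField ℚ ℂ := B.toIntermediateField fun x hx =>
    B.inv_mem_of_algebraic (x := ⟨x, hx⟩) (isAlgebraic_iff_isIntegral.2 (hBalg x hx))
  have hLle : L ≤ IntermediateField.adjoin ℚ {t} := by
    rintro _ ⟨P, -, rfl⟩
    exact IntermediateField.algebra_adjoin_le_adjoin ℚ {t} (by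
      rw [Algebra.adjoin_singleton_eq_range_aeval]
      exact ⟨P, rfl⟩)
  have _ : FiniteDimensional ℚ (IntermediateField.adjoin ℚ {t}) :=
    IntermediateField.adjoin.finiteDimensional halg
  have _ : FiniteDimensional ℚ L :=
    FiniteDimensional.of_injective (IntermediateField.inclusion hLle).toLinearMap
      (IntermediateField.inclusion hLle).injective
  obtain ⟨α, hα⟩ := Field.exists_primitive_element ℚ L
  obtain ⟨P0, hP0, hP0α⟩ : (α : ℂ) ∈ B := α.2
  change aeval t P0 = (α : ℂ) at hP0α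
  refine ⟨aeval a P0, hom_aeval ha.1 P0, hP0, fun b hb hc => ?_⟩
  have hba : b ∈ Algebra.adjoin ℚ {a} := ha.2 b hb (hc a ha.1).symm
  rw [Algebra.adjoin_singleton_eq_range_aeval] at hba
  obtain ⟨P, hP⟩ := hba
  change aeval a P = b at hP
  have hPS : P ∈ S := by
    intro f hf
    rw [hP]
    exact hc f hf
  have h1 : (⟨aeval t P, ⟨P, hPS, rfl⟩⟩ : L) ∈ IntermediateField.adjoin ℚ {α} := by
    rw [hα]
    exact IntermediateField.mem_top
  rw [← IntermediateField.mem_toSubalgebra,
    IntermediateField.adjoin_simple_toSubalgebra_of_isAlgebraic (IsAlgebraic.of_finite ℚ α),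
    Algebra.adjoin_singleton_eq_range_aeval] at h1
  obtain ⟨Q, hQ⟩ := h1
  change aeval α Q = _ at hQ
  have h2 : aeval (α : ℂ) Q = aeval t P := by
    have h3 := congrArg (algebraMap L ℂ) hQ
    rw [← Polynomial.aeval_algebraMap_apply] at h3
    exact h3
  have h4 : aeval t (P - Q.comp P0) = 0 := by
    rw [map_sub, aeval_comp, hP0α, h2, sub_self]
  have h5 := (hiff _).1 h4
  rw [map_sub, aeval_comp, sub_eq_zero, hP] at h5
  rw [h5, Algebra.adjoin_singleton_eq_range_aeval]
  exact ⟨Q, rfl⟩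

end

end Pool.Agent.K9h17.E
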