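import Mathlib
import Pool.Agent.K9h17.E.Gen
import Pool.Agent.K9h17.C.Quad

/-!
# The multiplicities of the centre of a simple abelian variety with indefinite signatures
-/

set_option linter.unusedSectionVars false

namespace Pool.Agent.K9h17.E

open Module Pool.Agent.Y90 Pool.Agent.R915 Pool.Agent.N183.U5 Polynomial
open Pool.Agent.K9h17.T

noncomputable section

variable {X : AV} {a φ : Module.End ℚ X.H} {Ψ Φ : Module.End ℂ X.T}

/-- The eigenvalues of an element of `ℚ[a]` on the tangent space come from those of `a`. -/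
theorem tan_lift (hΨ : ∀ v, Ψ (X.per v) = X.per (a v)) (hφ : φ ∈ Algebra.adjoin ℚ {a})
    (hΦ : ∀ v, Φ (X.per v) = X.per (φ v)) {s : ℂ} (hs : finrank ℂ (Φ.eigenspace s) ≠ 0) :
    ∃ (u : ℂ) (P : ℚ[X]), aeval u (minpoly ℚ a) = 0 ∧ aeval u P = s ∧
      Φ = aeval Ψ (P.map (algebraMap ℚ ℂ)) := by
  rw [Algebra.adjoin_singleton_eq_range_aeval] at hφ
  obtain ⟨p, hp⟩ := hφ
  change aeval a p = φ at hp
  have h1 : Φ = aeval (Ψ : Module.End ℂ X.T) (p.map (algebraMap ℚ ℂ)) := by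
    refine tan_ext fun v => ?_
    rw [hΦ, tan_aeval (Ψ := Ψ) hΨ, hp]
  have hst : ∀ x ∈ Φ.eigenspace s, Ψ x ∈ Φ.eigenspace s := by
    intro x hx
    rw [Module.End.mem_eigenspace_iff] at hx ⊢
    have h2 : Φ * (Ψ : Module.End ℂ X.T) = Ψ * Φ := by
      rw [h1]
      nth_rewrite 2 [← aeval_X (R := ℂ) (Ψ : Module.End ℂ X.T)]
      nth_rewrite 3 [← aeval_X (R := ℂ) (Ψ : Module.End ℂ X.T)]
      rw [← map_mul, ← map_mul, mul_comm]
    have h3 := LinearMap.congr_fun h2 x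
    rw [Module.End.mul_apply, Module.End.mul_apply, hx, map_smul] at h3
    exact h3
  have _ : FiniteDimensional ℂ (Φ.eigenspace s) := Module.finite_of_finrank_pos (Nat.pos_of_ne_zero hs)
  have _ : Nontrivial (Φ.eigenspace s) := Module.nontrivial_of_finrank_pos (R := ℂ)
    (Nat.pos_of_ne_zero hs)
  obtain ⟨u, hu⟩ := Module.End.exists_eigenvalue
    ((Ψ : Module.End ℂ X.T).restrict (p := Φ.eigenspace s) (q := Φ.eigenspace s) hst)
  obtain ⟨x, hx⟩ := hu.exists_hasEigenvector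
  have hx1 : Ψ (x : X.T) = u • (x : X.T) := congrArg Subtype.val hx.apply_eq_smul
  have hx0 : (x : X.T) ≠ 0 := fun h => hx.2 (Subtype.ext h)
  have hx2 : Φ (x : X.T) = s • (x : X.T) := Module.End.mem_eigenspace_iff.1 x.2
  have h3 := Module.End.aeval_apply_of_hasEigenvector (f := (Ψ : Module.End ℂ X.T))
    (p := p.map (algebraMap ℚ ℂ)) (μ := u) (x := (x : X.T))
    ⟨Module.End.mem_eigenspace_iff.2 hx1, hx0⟩
  rw [← h1, hx2, Polynomial.eval_map_algebraMap] at h3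
  have h4 : s = aeval u p := smul_left_injective ℂ hx0 h3
  exact ⟨u, p, tan_root hΨ hx0 hx1, h4.symm, h1⟩

theorem conj_aeval (u : ℂ) (P : ℚ[X]) : aeval (starRingEnd ℂ u) P = starRingEnd ℂ (aeval u P) :=
  Polynomial.aeval_algHom_apply ((starRingEnd ℂ).toRatAlgHom) u P

/-- If all relative signatures are indefinite then all multiplicities of the centre are mixed. -/
theorem mixed_of_pos (hΨ : ∀ v, Ψ (X.per v) = X.per (a v)) (hφ : φ ∈ Algebra.adjoin ℚ {a})
    (hΦ : ∀ v, Φ (X.per v) = X.per (φ v))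
    (hpos : ∀ u : ℂ, aeval u (minpoly ℚ a) = 0 → 0 < finrank ℂ (Ψ.eigenspace u)) {s : ℂ}
    (hs : finrank ℂ (Φ.eigenspace s) ≠ 0) : finrank ℂ (Φ.eigenspace (starRingEnd ℂ s)) ≠ 0 := by
  obtain ⟨u, P, hu, hP, hΦP⟩ := tan_lift hΨ hφ hΦ hs
  have hu' : aeval (starRingEnd ℂ u) (minpoly ℚ a) = 0 := by
    rw [conj_aeval, hu, map_zero]
  have h1 := hpos _ hu'
  have hle : Ψ.eigenspace (starRingEnd ℂ u) ≤ Φ.eigenspace (starRingEnd ℂ s) := by
    intro x hx
    rw [Module.End.mem_eigenspace_iff]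
    by_cases hx0 : x = 0
    · rw [hx0, map_zero, smul_zero]
    · have h3 := Module.End.aeval_apply_of_hasEigenvector (f := (Ψ : Module.End ℂ X.T))
        (p := P.map (algebraMap ℚ ℂ)) (μ := starRingEnd ℂ u) (x := x) ⟨hx, hx0⟩
      rw [← hΦP, Polynomial.eval_map_algebraMap, conj_aeval, hP] at h3
      exact h3
  have h2 := Submodule.finrank_mono hle
  omega

/-- Mixed multiplicities are separated. -/
theorem sep_of_mixed {n : ℂ → ℕ} (h : ∀ s, n s ≠ 0 → n (starRingEnd ℂ s) ≠ 0) :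
    IsSeparated n := by
  rintro s s' - ⟨τ, hτ⟩
  refine ⟨τ, hτ, ?_⟩
  by_cases h1 : n (τ s) = 0
  · right
    have h2 : n (τ s') ≠ 0 := by
      intro h2
      apply hτ
      rw [h1, h2, zero_mul, zero_mul]
    exact ⟨h2, h _ h2⟩
  · exact Or.inl ⟨h1, h _ h1⟩

/-- The generator of the centre is in `ℚ[a]`. -/
theorem centre_mem (ha : MaxField X a) (hφ : CentreGen X φ) : φ ∈ Algebra.adjoin ℚ {a} :=
  ha.2 _ hφ.1 (hφ.2.1 a ha.1).symm

/-- The multiplicities of the centre of a simple abelian variety with indefinite signatures are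
separated. -/
theorem sep_simple (ha : MaxField X a) (hφ : CentreGen X φ)
    (hΨ : ∀ v, Ψ (X.per v) = X.per (a v)) (hΦ : ∀ v, Φ (X.per v) = X.per (φ v))
    (hpos : ∀ u : ℂ, aeval u (minpoly ℚ a) = 0 → 0 < finrank ℂ (Ψ.eigenspace u)) :
    IsSeparated fun s => finrank ℂ (Φ.eigenspace s) :=
  sep_of_mixed fun _ hs => mixed_of_pos hΨ (centre_mem ha hφ) hΦ hpos hs

end

end Pool.Agent.K9h17.E
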