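import Mathlib
import Pool.Agent.K9h17.C.Stm
import Pool.Agent.K9h17.T.Stm

/-!
# Conditions on the Galois group for a simple abelian variety

Let `X` be a simple abelian variety and let `a` be an endomorphism such that `ℚ[a]` is a maximal
subfield of the endomorphism algebra. The embeddings of `ℚ[a]` in `ℂ` are the roots `s` of the minimal
polynomial of `a`, and `VS K X a s` is the eigenspace `V_s` of `a` in `ℂ ⊗ H_1(X, ℚ)`.
-/

namespace Pool.Agent.K9h17.E

open Module Pool.Agent.Y90 Pool.Agent.N183.U5 Polynomial TensorProduct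
open Pool.Agent.K9h17.T (OddThree TwoSlopesNonsquare)

variable {K : Type} [Field K] [CharZero K] {Γ : Type} [Group Γ]

/-- The element `γ` of the Galois group commutes with the endomorphisms of `X`. -/
def CommutesEnd {X : AV} (ρ : Representation K Γ (K ⊗[ℚ] X.H)) (γ : Γ) : Prop :=
  ∀ b : Module.End ℚ X.H, IsHom X X b → ∀ v, ρ γ (b.baseChange K v) = b.baseChange K (ρ γ v)

variable [Algebra K ℂ]

/-- `(t - 1) ^ 2 = 0` on the subspace `W`, and `t - 1` has an odd rank on `W`. -/
def UnipOdd {V : Type} [AddCommGroup V] [Module ℂ V] (t : Module.End ℂ V) (W : Submodule ℂ V) :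
    Prop :=
  (∀ w ∈ W, (t - 1) ((t - 1) w) = 0) ∧ Odd (finrank ℂ (W.map (t - 1)))

/-- For each embedding `s` of `ℚ[a]` there is an element `γ` of the Galois group, which commutes with
the endomorphisms of `X`, such that `(γ - 1) ^ 2 = 0` on `V_s` and `γ - 1` has an odd rank on `V_s`
(`UnipOdd`). -/
def OddUnipotent {X : AV} (ρ : Representation K Γ (K ⊗[ℚ] X.H)) (a : Module.End ℚ X.H) : Prop :=
  ∀ s : ℂ, aeval s (minpoly ℚ a) = 0 → ∃ γ : Γ, CommutesEnd ρ γ ∧
    UnipOdd ((ρ γ).baseChange ℂ) (VS K X a s)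

/-- For each embedding `s` of `ℚ[a]` there is an element `γ` of the Galois group, which commutes with
the endomorphisms of `X`, with three classes of eigenvalues on `V_s` (`OddThree`) or with two slopes
and a nonsquare value of its characteristic polynomial on `V_s` (`TwoSlopesNonsquare`). -/
def OddSlopes {X : AV} (ρ : Representation K Γ (K ⊗[ℚ] X.H)) (a : Module.End ℚ X.H) : Prop :=
  ∀ s : ℂ, aeval s (minpoly ℚ a) = 0 → ∃ γ : Γ, CommutesEnd ρ γ ∧
    (OddThree ((ρ γ).baseChange ℂ) (VS K X a s) ∨
      TwoSlopesNonsquare ((ρ γ).baseChange ℂ) (VS K X a s) s)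

end Pool.Agent.K9h17.E
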