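import Mathlib
import Pool.Agent.K9h17.E.Mix
import Pool.Agent.K9h17.D.Quad
import Pool.Agent.K9h17.E.Stm
import Pool.Agent.K9h17.F.Mt

/-!
# The theorems for simple abelian varieties
-/

set_option linter.unusedSectionVars false

namespace Pool.Agent.K9h17.E

open Module Pool.Agent.Y90 Pool.Agent.R915 Pool.Agent.N183.U5 Polynomial TensorProduct
open Pool.Agent.K9h17.S Pool.Agent.K9h17.T Pool.Agent.K9h17.C Pool.Agent.K9h17.G
open Pool.Agent.K9h17.D
open Pool.Agent.H204R3.GP (TateGeneratedInDegreeTwo IsTateClass IsWedge)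
open Pool.Agent.Y224.TS.St (IsTateModule)

noncomputable section

variable {K : Type} [Field K] [CharZero K] [Algebra K ℂ] [Algebra.IsAlgebraic K ℂ]
  {Γ : Type} [Group Γ] {X : AV} (hX : IsSimple X) {a : Module.End ℚ X.H} (ha : MaxField X a)
  {Ψ : Module.End ℂ X.T} (hΨ : ∀ v, Ψ (X.per v) = X.per (a v))
  {E : X.H → X.H → ℚ} (hE : Pool.Agent.Y90.St.IsPolarization X.per E)
  {ρ : Representation K Γ (K ⊗[ℚ] X.H)} {χ : Γ →* K} (hρ : IsTateModule X.per E ρ χ)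

/-- All codimensions. -/
theorem codim_of_two {V : Type} [AddCommGroup V] [Module K V] {ρ : Representation K Γ V}
    {χ : Γ →* K} (h : TateGeneratedInDegreeTwo ρ χ) (m : ℕ) : TateGeneratedInCodim ρ χ m :=
  fun n f hf => h n m f hf

include hX ha hΨ hE hρ

/-- **Unbalanced signatures.** -/
theorem thm_unbalanced
    (hpos : ∀ s : ℂ, aeval s (minpoly ℚ a) = 0 → 0 < finrank ℂ (Ψ.eigenspace s))
    {s₀ : ℂ} (hs₀ : aeval s₀ (minpoly ℚ a) = 0) {p q : ℕ} (hp : finrank ℂ (Ψ.eigenspace s₀) = p)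
    (hq : 0 < q) (hdim : (minpoly ℚ a).natDegree * (p + q) = finrank ℚ X.H) (hpq : p ≠ q)
    (hbin : NotBinomial p q)
    (hgcd : ∀ s : ℂ, aeval s (minpoly ℚ a) = 0 →
      ¬p + q ∣ p.gcd q * (finrank ℂ (Ψ.eigenspace s)).gcd (p + q))
    {φ : Module.End ℚ X.H} (hφ : CentreGen X φ) {Φ : Module.End ℂ X.T}
    (hΦ : ∀ v, Φ (X.per v) = X.per (φ v)) {m : ℕ}
    (hm : m < p + q ∨ IsNondegenerate fun s => finrank ℂ (Φ.eigenspace s)) :
    TateGeneratedInCodim ρ χ m := by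
  have hp0 : 0 < p := hp ▸ hpos s₀ hs₀
  have hu : UnbalancedMult X := by
    refine ⟨a, Ψ, s₀, p, q, ha, hΨ, hs₀, hp, hdim, hp0, hq, hpq, hbin, ?_⟩
    intro s' p' q' hs' hp' hpq' _ _
    have h1 := hgcd s' hs'
    rw [hp', ← hpq', Nat.gcd_self_add_right] at h1
    rw [← hpq']
    exact h1
  have hn : IsCentreMult X fun s => finrank ℂ (Φ.eigenspace s) := ⟨φ, Φ, hφ, hΦ, fun _ => rfl⟩
  have hsep := sep_simple ha hφ hΨ hΦ hpos
  rcases hm with hm | hnd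
  · refine tate_low X hE (N := 2 * (p + q)) (fun Y hY => ?_) hn hsep hρ (by omega)
    obtain ⟨e, he⟩ := factor_simple hX hY
    refine ⟨Or.inr (Or.inl (unbalanced_iso he hu)), ?_⟩
    obtain ⟨Ψ', h1, h2⟩ := exists_tan he hΨ
    refine Or.inr ⟨cjg e a, Ψ', maxField_iso he ha, h1, Or.inr ⟨?_, s₀, ?_, ?_⟩⟩
    · rw [minpoly_cjg, e.finrank_eq, ← hdim]
      exact le_of_eq (by ring)
    · rw [minpoly_cjg]
      exact hs₀
    · rw [minpoly_cjg, h2, e.finrank_eq, ← hdim, hp]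
      intro h3
      have h4 : 0 < (minpoly ℚ a).natDegree := by
        rcases Nat.eq_zero_or_pos (minpoly ℚ a).natDegree with h5 | h5
        · exfalso
          rw [h5, zero_mul] at hdim
          obtain ⟨v, hv⟩ := hX.1
          have h6 := (finrank_zero_iff (R := ℚ) (M := X.H)).1 hdim.symm
          exact hv (Subsingleton.elim _ _)
        · exact h5
      have h5 := Nat.eq_of_mul_eq_mul_left h4 h3
      omega
  · refine codim_of_two (tate_generated X hE (fun Y hY => Or.inr ?_) hn hsep hnd hρ) m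
    obtain ⟨e, he⟩ := factor_simple hX hY
    exact unbalanced_iso he hu

/-- **Balanced signatures.** -/
theorem thm_balanced {p : ℕ}
    (hbal : ∀ s : ℂ, aeval s (minpoly ℚ a) = 0 → finrank ℂ (Ψ.eigenspace s) = p)
    (hdim : (minpoly ℚ a).natDegree * (2 * p) = finrank ℚ X.H) (hodd : Odd p)
    {φ : Module.End ℚ X.H} (hφ : CentreGen X φ)
    (hIV : ∀ s : ℂ, aeval s (minpoly ℚ φ) = 0 → s.im ≠ 0) {m : ℕ} (hm : m < p) :
    TateGeneratedInCodim ρ χ m := by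
  have hb : F.BalancedIV X :=
    ⟨a, Ψ, p, ha, hΨ, hodd, hbal, by rw [← two_mul]; exact hdim, φ, hφ, hIV⟩
  obtain ⟨Φ, hΦ⟩ := hφ.1
  have hpos : ∀ s : ℂ, aeval s (minpoly ℚ a) = 0 → 0 < finrank ℂ (Ψ.eigenspace s) :=
    fun s hs => by rw [hbal s hs]; exact hodd.pos
  refine F.tate_low X hE (N := 2 * p) (n := fun s => finrank ℂ (Module.End.eigenspace
    (Φ : Module.End ℂ X.T) s)) (fun Y hY => ?_) ⟨φ, Φ, hφ, hΦ, fun _ => rfl⟩
    (sep_simple ha hφ hΨ (Φ := Φ) hΦ hpos) hρ (by omega)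
  obtain ⟨e, he⟩ := factor_simple hX hY
  refine ⟨Or.inr (Or.inr (Or.inr (F.balancedIV_iso he hb))), ?_⟩
  obtain ⟨Ψ', h1, h2⟩ := exists_tan he hΨ
  refine Or.inr ⟨cjg e a, Ψ', maxField_iso he ha, h1, Or.inl ?_⟩
  rw [minpoly_cjg, e.finrank_eq, ← hdim]

omit ha hΨ in
/-- **Types I and II**, one element with two or three classes of eigenvalues. -/
theorem thm_three (ha : RealMax X a)
    (h : OddSlopes ρ a) (m : ℕ) :
    TateGeneratedInCodim ρ χ m := by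
  obtain ⟨φ, hφ⟩ := exists_centreGen hX (a := a) ⟨ha.1, ha.2.2⟩
  refine codim_of_two (tate_simple hX hφ hE hρ ⟨a, ha, fun s hs => ?_⟩) m
  obtain ⟨γ, h1, h2⟩ := h s hs
  exact ⟨γ, ρ γ, ⟨h1, h1⟩, h2⟩

/-- **Unipotent elements of odd rank.** -/
theorem unipotentGal_of {p : ℕ} (hp0 : 0 < p)
    (hbal : ∀ s : ℂ, aeval s (minpoly ℚ a) = 0 → finrank ℂ (Ψ.eigenspace s) = p)
    (hdim : (minpoly ℚ a).natDegree * (2 * p) = finrank ℚ X.H)
    (h : OddUnipotent ρ a) : UnipotentGal X ρ X := by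
  obtain ⟨t, ht⟩ := exists_root hX a
  refine ⟨a, Ψ, t, p, p, ha, hΨ, ht, hbal t ht, by rw [← two_mul]; exact hdim, hp0, hp0,
    fun s hs => ?_⟩
  obtain ⟨γ, h1, h2, h3⟩ := h s hs
  refine ⟨γ, ρ γ, _, ⟨h1, h1⟩, ⟨h2, rfl⟩, notBinomialRank_odd h3, ?_⟩
  intro s' p' q' hs' hp' hpq' _ _
  rw [hbal s' hs'] at hp'
  have h4 : q' = p := by omega
  rw [← hp', h4]
  exact odd_not_dvd hp0 h3

omit ha hΨ hE hρ in
theorem pos_of_dim {p : ℕ} (hdim : (minpoly ℚ a).natDegree * (2 * p) = finrank ℚ X.H) :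
    0 < p := by
  obtain ⟨v, hv⟩ := hX.1
  rcases Nat.eq_zero_or_pos p with h5 | h5
  · exfalso
    rw [h5, mul_zero, mul_zero] at hdim
    have h6 := (finrank_zero_iff (R := ℚ) (M := X.H)).1 hdim.symm
    exact hv (Subsingleton.elim _ _)
  · exact h5

/-- **Unipotent elements of odd rank.** -/
theorem thm_unipotent {p : ℕ}
    (hbal : ∀ s : ℂ, aeval s (minpoly ℚ a) = 0 → finrank ℂ (Ψ.eigenspace s) = p)
    (hdim : (minpoly ℚ a).natDegree * (2 * p) = finrank ℚ X.H)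
    (h : OddUnipotent ρ a) {m : ℕ}
    (hm : m < p ∨ ∀ s : ℂ, aeval s (minpoly ℚ a) = 0 → s.im = 0) :
    TateGeneratedInCodim ρ χ m := by
  obtain ⟨φ, hφ⟩ := exists_centreGen hX ha
  obtain ⟨Φ, hΦ⟩ := hφ.1
  have hp0 := pos_of_dim hX hdim
  have hpos : ∀ s : ℂ, aeval s (minpoly ℚ a) = 0 → 0 < finrank ℂ (Ψ.eigenspace s) :=
    fun s hs => by rw [hbal s hs]; exact hp0
  have hu := unipotentGal_of hX ha hΨ hE hρ hp0 hbal hdim h
  have hcls : ∀ Y, IsFactor Y X → Good X ρ Y ∨ NewGal X ρ Y := by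
    intro Y hY
    obtain ⟨e, he⟩ := factor_simple hX hY
    exact Or.inr (Or.inl (unipotentGal_iso he hu))
  have hn : IsCentreMult X fun s => finrank ℂ (Module.End.eigenspace (Φ : Module.End ℂ X.T) s) :=
    ⟨φ, Φ, hφ, hΦ, fun _ => rfl⟩
  have hsep := sep_simple ha hφ hΨ (Φ := Φ) hΦ hpos
  rcases hm with hm | hr
  · refine gal_low X hE (N := 2 * p) hcls (fun Y hY => ?_) hn hsep hρ (by omega)
    obtain ⟨e, he⟩ := factor_simple hX hY
    obtain ⟨Ψ', h1, h2⟩ := exists_tan he hΨ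
    refine Or.inr ⟨cjg e a, Ψ', maxField_iso he ha, h1, Or.inl ?_⟩
    rw [minpoly_cjg, e.finrank_eq, ← hdim]
  · refine codim_of_two (gal_generated X hE hcls hn hsep (nondeg_real fun s hs => ?_) hρ) m
    exact real_tan (a := a) ⟨ha.1, hr, ha.2⟩ (centre_mem ha hφ) (Φ := Φ) hΦ hs

end

end Pool.Agent.K9h17.E
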